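import Pool.Agent.helper57.DH.SpecL

set_option autoImplicit false

open Filter Topology MeasureTheory
open scoped commutatorElement

namespace Pool.Agent.helper90.DH

open Pool.Agent.helper64.D2

theorem LJP_mem_cell (s : ℕ) (k : ℤ) (x : ℝ) : x ∈ cell s k ↔ ci s x = k := by
  have h2 : (0 : ℝ) < 2 ^ s := by positivity
  unfold cell ci
  rw [Set.mem_Ico, Int.floor_eq_iff, div_le_iff₀ h2, lt_div_iff₀ h2, mul_comm x]

theorem LJP_JF_nonneg (s e : ℕ) (g : ℝ → ℝ) (x : ℝ) : 0 ≤ JF s e g x := by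
  unfold JF
  refine add_nonneg ?_ ?_
  · split
    · exact abs_nonneg _
    · exact le_rfl
  · split
    · exact abs_nonneg _
    · exact le_rfl

theorem LJP_slope (s : ℕ) (k : ℤ) (g : ℝ → ℝ) (B a b : ℝ) (hab : ∀ x ∈ cell s k, g x = a + b * x)
    (hlip : ∀ x z, ci s x = ci s z → |g x - g z| ≤ 2 * 2 ^ s * B * |x - z|) :
    |b| ≤ 2 * 2 ^ s * B := by
  have h2 : (0 : ℝ) < 2 ^ s := by positivity
  have hm1 : ((k : ℝ) + 1 / 2) / 2 ^ s ∈ cell s k := by
    unfold cell
    rw [Set.mem_Ico]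
    exact ⟨(div_le_div_iff_of_pos_right h2).mpr (by linarith), (div_lt_div_iff_of_pos_right h2).mpr (by linarith)⟩
  have hm2 : (k : ℝ) / 2 ^ s ∈ cell s k := by
    unfold cell
    rw [Set.mem_Ico]
    exact ⟨le_rfl, (div_lt_div_iff_of_pos_right h2).mpr (by linarith)⟩
  have h := hlip _ _ (((LJP_mem_cell s k _).mp hm1).trans ((LJP_mem_cell s k _).mp hm2).symm)
  rw [hab _ hm1, hab _ hm2] at h
  have e1 : a + b * (((k : ℝ) + 1 / 2) / 2 ^ s) - (a + b * ((k : ℝ) / 2 ^ s)) = b * (1 / 2 / 2 ^ s) := by ring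
  have e2 : ((k : ℝ) + 1 / 2) / 2 ^ s - (k : ℝ) / 2 ^ s = 1 / 2 / 2 ^ s := by ring
  rw [e1, e2, abs_mul, abs_of_pos (show (0 : ℝ) < 1 / 2 / 2 ^ s by positivity)] at h
  exact le_of_mul_le_mul_right h (by positivity)

/-- The left cell `k-1` and the right cell `k`; `u` in the left one, `w` in the right one. -/
theorem LJP_core (s : ℕ) (k : ℤ) (g : ℝ → ℝ) (B u w : ℝ) (hg : PA s g)
    (hlip : ∀ x z, ci s x = ci s z → |g x - g z| ≤ 2 * 2 ^ s * B * |x - z|)
    (hu : u ∈ cell s (k - 1)) (hw : w ∈ cell s k) :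
    |g w - g u| ≤ |jmp s g k| + 2 * 2 ^ s * B * (w - u) := by
  have h2 : (0 : ℝ) < 2 ^ s := by positivity
  obtain ⟨a1, b1, h1⟩ := hg (k - 1)
  obtain ⟨a2, b2, h2'⟩ := hg k
  have hs1 := LJP_slope s (k - 1) g B a1 b1 h1 hlip
  have hs2 := LJP_slope s k g B a2 b2 h2' hlip
  have hp1 : (k : ℝ) / 2 ^ s ∈ cell s k := by
    unfold cell
    rw [Set.mem_Ico]
    exact ⟨le_rfl, (div_lt_div_iff_of_pos_right h2).mpr (by linarith)⟩
  have hp2 : ((k : ℝ) - 1 / 2) / 2 ^ s ∈ cell s (k - 1) := by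
    unfold cell
    rw [Set.mem_Ico]
    push_cast
    exact ⟨(div_le_div_iff_of_pos_right h2).mpr (by linarith), (div_lt_div_iff_of_pos_right h2).mpr (by linarith)⟩
  have hp3 : ((k : ℝ) - 1) / 2 ^ s ∈ cell s (k - 1) := by
    unfold cell
    rw [Set.mem_Ico]
    push_cast
    exact ⟨(div_le_div_iff_of_pos_right h2).mpr (by linarith), (div_lt_div_iff_of_pos_right h2).mpr (by linarith)⟩
  have hj : jmp s g k = (a2 + b2 * ((k : ℝ) / 2 ^ s)) - (a1 + b1 * ((k : ℝ) / 2 ^ s)) := by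
    unfold jmp
    rw [h2' _ hp1, h1 _ hp2, h1 _ hp3]
    ring
  have hub : u ≤ (k : ℝ) / 2 ^ s := by
    unfold cell at hu
    rw [Set.mem_Ico] at hu
    push_cast at hu
    have := hu.2
    rw [sub_add_cancel] at this
    exact this.le
  have hwb : (k : ℝ) / 2 ^ s ≤ w := by
    unfold cell at hw
    rw [Set.mem_Ico] at hw
    exact hw.1
  have he : g w - g u = jmp s g k + (b2 * (w - (k : ℝ) / 2 ^ s) + b1 * ((k : ℝ) / 2 ^ s - u)) := by
    rw [hj, h2' _ hw, h1 _ hu]
    ring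
  rw [he]
  have i1 : |b2 * (w - (k : ℝ) / 2 ^ s)| ≤ 2 * 2 ^ s * B * (w - (k : ℝ) / 2 ^ s) := by
    rw [abs_mul, abs_of_nonneg (show 0 ≤ w - (k : ℝ) / 2 ^ s by linarith)]
    exact mul_le_mul_of_nonneg_right hs2 (by linarith)
  have i2 : |b1 * ((k : ℝ) / 2 ^ s - u)| ≤ 2 * 2 ^ s * B * ((k : ℝ) / 2 ^ s - u) := by
    rw [abs_mul, abs_of_nonneg (show 0 ≤ (k : ℝ) / 2 ^ s - u by linarith)]
    exact mul_le_mul_of_nonneg_right hs1 (by linarith)
  calc |jmp s g k + (b2 * (w - (k : ℝ) / 2 ^ s) + b1 * ((k : ℝ) / 2 ^ s - u))|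
      ≤ |jmp s g k| + (|b2 * (w - (k : ℝ) / 2 ^ s)| + |b1 * ((k : ℝ) / 2 ^ s - u)|) :=
        (abs_add_le _ _).trans (add_le_add le_rfl (abs_add_le _ _))
    _ ≤ |jmp s g k| + (2 * 2 ^ s * B * (w - (k : ℝ) / 2 ^ s) + 2 * 2 ^ s * B * ((k : ℝ) / 2 ^ s - u)) :=
        add_le_add le_rfl (add_le_add i1 i2)
    _ = |jmp s g k| + 2 * 2 ^ s * B * (w - u) := by ring

theorem LJP_one (hLEN : LEN_stmt) (s e : ℕ) (g : ℝ → ℝ) (B z z' : ℝ) (hg : PA s g) (hB : ∀ x, |g x| ≤ B)
    (hzz : |z - z'| ≤ 1 / 2 ^ (s + e)) : |g z - g z'| ≤ JF s e g z' + 2 * 2 ^ s * B * |z - z'| := by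
  have h2 : (0 : ℝ) < 2 ^ s := by positivity
  have h2e : (0 : ℝ) < 2 ^ (s + e) := by positivity
  have hlip := ((hLEN s g hg).2.2.2 B hB).2
  have hB0 : 0 ≤ B := (abs_nonneg _).trans (hB 0)
  have hle : (1 : ℝ) / 2 ^ (s + e) ≤ 1 / 2 ^ s := by
    refine one_div_le_one_div_of_le h2 ?_
    exact pow_le_pow_right₀ (by norm_num) (by omega)
  rw [abs_le] at hzz
  rcases lt_trichotomy (ci s z) (ci s z') with hlt | heq | hgt
  · -- `z < b ≤ z'`
    set k := ci s z' with hk
    have hzc : z' ∈ cell s k := (LJP_mem_cell s k z').mpr rfl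
    have hzc1 : z ∈ cell s (ci s z) := (LJP_mem_cell s _ z).mpr rfl
    have hk1 : ci s z = k - 1 := by
      unfold cell at hzc hzc1
      rw [Set.mem_Ico] at hzc hzc1
      have i1 : (k : ℝ) / 2 ^ s < ((ci s z : ℝ) + 1) / 2 ^ s + 1 / 2 ^ s := by linarith [hzc.1, hzc1.2, hzz.1]
      have i2 : (k : ℝ) < (ci s z : ℝ) + 2 := by
        have : (k : ℝ) / 2 ^ s < ((ci s z : ℝ) + 2) / 2 ^ s := by
          calc (k : ℝ) / 2 ^ s < ((ci s z : ℝ) + 1) / 2 ^ s + 1 / 2 ^ s := i1
            _ = ((ci s z : ℝ) + 2) / 2 ^ s := by ring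
        exact (div_lt_div_iff_of_pos_right h2).mp this
      have i3 : k < ci s z + 2 := by exact_mod_cast i2
      omega
    rw [hk1] at hzc1
    have hcore := LJP_core s k g B z z' hg hlip hzc1 hzc
    have hbz : z < (k : ℝ) / 2 ^ s := by
      unfold cell at hzc1
      rw [Set.mem_Ico] at hzc1
      push_cast at hzc1
      have := hzc1.2
      rwa [sub_add_cancel] at this
    have hbz' : (k : ℝ) / 2 ^ s ≤ z' := by
      unfold cell at hzc
      rw [Set.mem_Ico] at hzc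
      exact hzc.1
    have hfl : ci (s + e) z' = 2 ^ e * k := by
      rw [← LJP_mem_cell]
      unfold cell
      rw [Set.mem_Ico]
      push_cast
      have e1 : (2 : ℝ) ^ e * k / 2 ^ (s + e) = (k : ℝ) / 2 ^ s := by
        rw [pow_add]
        field_simp
      have e2 : ((2 : ℝ) ^ e * k + 1) / 2 ^ (s + e) = (k : ℝ) / 2 ^ s + 1 / 2 ^ (s + e) := by
        rw [add_div, e1]
      rw [e1, e2]
      exact ⟨hbz', by linarith [hzz.1]⟩
    have hJ : |jmp s g k| ≤ JF s e g z' := by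
      unfold JF
      rw [if_pos (by rw [hfl]; exact dvd_mul_right _ _), ← hk]
      refine le_add_of_nonneg_right ?_
      split
      · exact abs_nonneg _
      · exact le_rfl
    rw [abs_sub_comm (g z)]
    have e3 : |z - z'| = z' - z := by
      rw [abs_sub_comm, abs_of_nonneg (by linarith)]
    rw [e3]
    linarith
  · have h := hlip z z' heq
    have h0 := LJP_JF_nonneg s e g z'
    linarith
  · -- `z' < b ≤ z`
    set k := ci s z with hk
    have hzc : z ∈ cell s k := (LJP_mem_cell s k z).mpr rfl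
    have hzc1 : z' ∈ cell s (ci s z') := (LJP_mem_cell s _ z').mpr rfl
    have hk1 : ci s z' = k - 1 := by
      unfold cell at hzc hzc1
      rw [Set.mem_Ico] at hzc hzc1
      have i1 : (k : ℝ) / 2 ^ s < ((ci s z' : ℝ) + 1) / 2 ^ s + 1 / 2 ^ s := by linarith [hzc.1, hzc1.2, hzz.2]
      have i2 : (k : ℝ) < (ci s z' : ℝ) + 2 := by
        have : (k : ℝ) / 2 ^ s < ((ci s z' : ℝ) + 2) / 2 ^ s := by
          calc (k : ℝ) / 2 ^ s < ((ci s z' : ℝ) + 1) / 2 ^ s + 1 / 2 ^ s := i1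
            _ = ((ci s z' : ℝ) + 2) / 2 ^ s := by ring
        exact (div_lt_div_iff_of_pos_right h2).mp this
      have i3 : k < ci s z' + 2 := by exact_mod_cast i2
      omega
    rw [hk1] at hzc1
    have hcore := LJP_core s k g B z' z hg hlip hzc1 hzc
    have hbz : z' < (k : ℝ) / 2 ^ s := by
      unfold cell at hzc1
      rw [Set.mem_Ico] at hzc1
      push_cast at hzc1
      have := hzc1.2
      rwa [sub_add_cancel] at this
    have hbz' : (k : ℝ) / 2 ^ s ≤ z := by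
      unfold cell at hzc
      rw [Set.mem_Ico] at hzc
      exact hzc.1
    have hfl : ci (s + e) z' = 2 ^ e * k - 1 := by
      rw [← LJP_mem_cell]
      unfold cell
      rw [Set.mem_Ico]
      push_cast
      have e1 : ((2 : ℝ) ^ e * k - 1) / 2 ^ (s + e) = (k : ℝ) / 2 ^ s - 1 / 2 ^ (s + e) := by
        rw [pow_add]
        field_simp
      have e2 : ((2 : ℝ) ^ e * k - 1 + 1) / 2 ^ (s + e) = (k : ℝ) / 2 ^ s := by
        rw [sub_add_cancel, pow_add]
        field_simp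
      rw [e1, e2]
      exact ⟨by linarith [hzz.2], hbz⟩
    have hJ : |jmp s g k| ≤ JF s e g z' := by
      have e4 : ci s z' + 1 = k := by omega
      unfold JF
      rw [e4]
      have h3 : (2 : ℤ) ^ e ∣ ci (s + e) z' + 1 := by
        rw [hfl, sub_add_cancel]
        exact dvd_mul_right _ _
      rw [if_pos h3]
      refine le_add_of_nonneg_left ?_
      split
      · exact abs_nonneg _
      · exact le_rfl
    have e3 : |z - z'| = z - z' := abs_of_nonneg (by linarith)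
    rw [e3]
    linarith

theorem LJP (hLEN : LEN_stmt) (hLCV : LCV_stmt) : LJP_stmt := by
  refine ⟨fun s e g B z z' hg hB hzz => LJP_one hLEN s e g B z z' hg hB hzz, ?_⟩
  intro q s e c g B x x' hc hB0 hg hB hxx
  have h2 : (0 : ℝ) < 2 ^ s := by positivity
  have h2e : (0 : ℝ) < 2 ^ (s + e) := by positivity
  have hterm : ∀ i ∈ Finset.range q, |g (ev (c i) x) - g (ev (c i) x')| ≤ JF s e g (ev (c i) x') + 2 * B / 2 ^ e := by
    intro i hi
    have hi' := Finset.mem_range.mp hi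
    have hS : Sz (c i) (1 / 50) := fun t => (hc i hi' t).trans (by norm_num)
    have hd : |ev (c i) x - ev (c i) x'| ≤ 51 / 50 * |x - x'| := by
      rcases le_total x x' with h | h
      · have h3 := hLCV.1 (c i) hS x x' h
        have h4 : ev (c i) x ≤ ev (c i) x' := by linarith [h3.1]
        rw [abs_sub_comm, abs_of_nonneg (by linarith), abs_sub_comm x, abs_of_nonneg (by linarith)]
        exact h3.2
      · have h3 := hLCV.1 (c i) hS x' x h
        have h4 : ev (c i) x' ≤ ev (c i) x := by linarith [h3.1]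
        rw [abs_of_nonneg (by linarith), abs_of_nonneg (by linarith)]
        exact h3.2
    have hpow : (1 : ℝ) / 2 ^ (s + e + 1) = 1 / 2 * (1 / 2 ^ (s + e)) := by
      rw [pow_succ]
      field_simp
    have hpos : (0 : ℝ) < 1 / 2 ^ (s + e) := by positivity
    have hd2 : |ev (c i) x - ev (c i) x'| ≤ 51 / 100 * (1 / 2 ^ (s + e)) := by
      rw [hpow] at hxx
      linarith
    have h5 := LJP_one hLEN s e g B (ev (c i) x) (ev (c i) x') hg hB (by linarith)
    have h6 : 2 * 2 ^ s * B * |ev (c i) x - ev (c i) x'| ≤ 2 * B / 2 ^ e := by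
      calc 2 * 2 ^ s * B * |ev (c i) x - ev (c i) x'| ≤ 2 * 2 ^ s * B * (1 / 2 ^ (s + e)) :=
            mul_le_mul_of_nonneg_left (by linarith) (by positivity)
        _ = 2 * B / 2 ^ e := by
            rw [pow_add]
            field_simp
    linarith
  unfold Mop
  rcases Nat.eq_zero_or_pos q with hq | hq
  · subst hq
    simp only [Finset.range_zero, Finset.sum_empty, Nat.cast_zero, div_zero, sub_zero, abs_zero, zero_add]
    positivity
  · have hq' : (0 : ℝ) < q := by exact_mod_cast hq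
    rw [← sub_div, ← Finset.sum_sub_distrib, abs_div, abs_of_pos hq']
    calc |∑ i ∈ Finset.range q, (g (ev (c i) x) - g (ev (c i) x'))| / q
        ≤ (∑ i ∈ Finset.range q, |g (ev (c i) x) - g (ev (c i) x')|) / q :=
          div_le_div_of_nonneg_right (Finset.abs_sum_le_sum_abs _ _) hq'.le
      _ ≤ (∑ i ∈ Finset.range q, (JF s e g (ev (c i) x') + 2 * B / 2 ^ e)) / q :=
          div_le_div_of_nonneg_right (Finset.sum_le_sum hterm) hq'.le
      _ = (∑ i ∈ Finset.range q, JF s e g (ev (c i) x')) / q + 2 * B / 2 ^ e := by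
          rw [Finset.sum_add_distrib, add_div, Finset.sum_const, Finset.card_range, nsmul_eq_mul]
          congr 1
          field_simp

end Pool.Agent.helper90.DH
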