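import Pool.Agent.helper57.DH.SpecL

set_option autoImplicit false

open Filter Topology MeasureTheory
open scoped commutatorElement

namespace Pool.Agent.helper90.DH

open Pool.Agent.helper64.D2

theorem LMX_Mop_add (q : ℕ) (c : ℕ → DD) (f g : ℝ → ℝ) (x : ℝ) :
    Mop q c (fun z => f z + g z) x = Mop q c f x + Mop q c g x := by
  unfold Mop
  rw [Finset.sum_add_distrib, add_div]

theorem LMX_mem_cell (s : ℕ) (k : ℤ) (x : ℝ) : x ∈ cell s k ↔ ci s x = k := by
  have h2 : (0 : ℝ) < 2 ^ s := by positivity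
  unfold cell ci
  rw [Set.mem_Ico, Int.floor_eq_iff, div_le_iff₀ h2, lt_div_iff₀ h2, mul_comm x]

theorem LMX_cell_meas (s : ℕ) (k : ℤ) : MeasurableSet (cell s k) := measurableSet_Ico

theorem LMX_cell_vol (s : ℕ) (k : ℤ) : volume.real (cell s k) = 1 / 2 ^ s := by
  have h2 : (0 : ℝ) < 2 ^ s := by positivity
  unfold cell
  rw [Real.volume_real_Ico_of_le]
  · ring
  · exact (div_le_div_iff_of_pos_right h2).mpr (by linarith)

theorem LMX_cell_fin (s : ℕ) (k : ℤ) : volume (cell s k) ≠ ⊤ := by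
  unfold cell
  rw [Real.volume_Ico]
  exact ENNReal.ofReal_ne_top

theorem LMX_near (s : ℕ) (x t : ℝ) (ht : t ∈ cell s (ci s x)) : |t - x| < 1 := by
  have h2 : (0 : ℝ) < 2 ^ s := by positivity
  have hx : x ∈ cell s (ci s x) := (LMX_mem_cell s _ x).mpr rfl
  unfold cell at ht hx
  rw [Set.mem_Ico] at ht hx
  have h3 : ((ci s x : ℝ) + 1) / 2 ^ s = (ci s x : ℝ) / 2 ^ s + 1 / 2 ^ s := by ring
  have h4 : (1 : ℝ) / 2 ^ s ≤ 1 := by
    rw [div_le_one h2]
    exact one_le_pow₀ (by norm_num)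
  rw [abs_lt]
  constructor <;> linarith [ht.1, ht.2, hx.1, hx.2]

theorem LMX_avg (s : ℕ) (k : ℤ) (g : ℝ → ℝ) (a : ℝ) (ha : 0 < a) (hg : Integrable (fun t => |g t|))
    (hg2 : Integrable (fun t => g t * g t)) (h : 2 ^ s * ∫ t in cell s k, g t * g t ≤ a ^ 2) :
    2 ^ s * ∫ t in cell s k, |g t| ≤ a := by
  have h2 : (0 : ℝ) < 2 ^ s := by positivity
  have h1 : ∫ t in cell s k, |g t| ≤ ∫ t in cell s k, (1 / (2 * a) * (g t * g t) + a / 2) := by
    refine setIntegral_mono hg.integrableOn ?_ ?_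
    · refine Integrable.add ?_ ?_
      · exact (hg2.const_mul _).integrableOn
      · exact integrableOn_const (LMX_cell_fin s k)
    · intro t
      show |g t| ≤ 1 / (2 * a) * (g t * g t) + a / 2
      have h5 : 0 ≤ (|g t| - a) ^ 2 := sq_nonneg _
      have h6 : g t * g t = |g t| ^ 2 := by rw [sq_abs]; ring
      rw [h6]
      have h7 : 1 / (2 * a) * |g t| ^ 2 + a / 2 - |g t| = (|g t| - a) ^ 2 / (2 * a) := by
        field_simp
        ring
      have h8 : 0 ≤ (|g t| - a) ^ 2 / (2 * a) := by positivity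
      linarith
  have h3 : ∫ t in cell s k, (1 / (2 * a) * (g t * g t) + a / 2) =
      1 / (2 * a) * (∫ t in cell s k, g t * g t) + a / 2 * (1 / 2 ^ s) := by
    rw [integral_add (hg2.const_mul _).integrableOn (integrableOn_const (LMX_cell_fin s k)), integral_const_mul]
    congr 1
    rw [setIntegral_const, LMX_cell_vol, smul_eq_mul]
    ring
  rw [h3] at h1
  calc 2 ^ s * ∫ t in cell s k, |g t|
      ≤ 2 ^ s * (1 / (2 * a) * (∫ t in cell s k, g t * g t) + a / 2 * (1 / 2 ^ s)) :=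
        mul_le_mul_of_nonneg_left h1 h2.le
    _ = 1 / (2 * a) * (2 ^ s * ∫ t in cell s k, g t * g t) + a / 2 := by
        field_simp
    _ ≤ 1 / (2 * a) * a ^ 2 + a / 2 := by
        have : 0 ≤ 1 / (2 * a) := by positivity
        nlinarith [mul_le_mul_of_nonneg_left h this]
    _ = a := by
        field_simp
        ring

/-- Markov for a finite sum of squares. -/
theorem LMX_markov (hLBM : LBM_stmt) (I : Finset ℕ) (F : ℕ → ℝ → ℝ) (hF : ∀ s ∈ I, BM (F s)) (a : ℝ) (ha : 0 < a) :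
    volume {x | a ≤ ∑ s ∈ I, F s x ^ 2} ≠ ⊤ ∧ volume.real {x | a ≤ ∑ s ∈ I, F s x ^ 2} ≤ 1 / a * ∑ s ∈ I, nsq (F s) := by
  have hi : ∀ s ∈ I, Integrable (fun x => F s x ^ 2) := by
    intro s hs
    have h1 : BM (fun x => F s x * F s x) := (hLBM.1 _ _ (hF s hs) (hF s hs)).2.2
    have h2 := (hLBM.2.1 1 _ h1).2.2
    refine h2.congr (Filter.Eventually.of_forall fun x => ?_)
    show F s x * F s x = F s x ^ 2
    ring
  have hint : Integrable (fun x => ∑ s ∈ I, F s x ^ 2) := integrable_finset_sum _ hi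
  have hsub : {x | a ≤ ∑ s ∈ I, F s x ^ 2} ⊆ Set.Icc (0 : ℝ) 1 := by
    intro x hx
    by_contra hx'
    have h0 : ∑ s ∈ I, F s x ^ 2 = 0 := by
      refine Finset.sum_eq_zero fun s hs => ?_
      rw [(hF s hs).2.2 x hx']
      ring
    rw [Set.mem_setOf_eq, h0] at hx
    linarith
  have hfin : volume {x | a ≤ ∑ s ∈ I, F s x ^ 2} ≠ ⊤ :=
    ne_top_of_le_ne_top (by rw [Real.volume_Icc]; exact ENNReal.ofReal_ne_top) (measure_mono hsub)
  refine ⟨hfin, ?_⟩
  have h3 := mul_meas_ge_le_integral_of_nonneg (μ := volume) (f := fun x => ∑ s ∈ I, F s x ^ 2)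
    (Filter.Eventually.of_forall fun x => Finset.sum_nonneg fun s _ => sq_nonneg _) hint a
  have h4 : ∫ x, ∑ s ∈ I, F s x ^ 2 = ∑ s ∈ I, nsq (F s) := by
    rw [integral_finset_sum _ hi]
    rfl
  rw [h4] at h3
  rw [one_div, inv_mul_eq_div, le_div_iff₀ ha, mul_comm]
  exact h3

theorem LMX (hLSQ : LSQ_stmt) (hFGA : FGA_stmt) (hLDM : LDM_stmt) (hLBM : LBM_stmt) (hLEA : LEA_stmt)
    (hLEB : LEB_stmt) (hLLV : LLV_stmt) : LMX_stmt := by
  obtain ⟨K1, hK1, H1⟩ := hLSQ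
  obtain ⟨K2, hK2, H2⟩ := hFGA
  refine ⟨18 * K1 + 144 * K2, by linarith, ?_⟩
  intro lam q c s0 N hl0 hl1 h10 hs0N hc hGAP y th hy hsup hth
  have hyS2 : S2 y := by
    intro x hx
    refine hsup x fun h => hx ?_
    rw [Set.mem_Icc] at h ⊢
    constructor <;> linarith [h.1, h.2]
  obtain ⟨hL1, hL2, hL3, hL4⟩ := hLLV y hy
  have hU : ∀ s, s0 ≤ s → BM (us s0 s y) := fun s hs => (hL2 s0 s hs).1
  have hMU : ∀ s, s0 ≤ s → BM (Mop q c (us s0 s y)) := fun s hs => hLBM.2.2.2.2.2 q c _ (hU s hs)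
  have hLg : 1 ≤ Lg lam := by
    unfold Lg
    have : 0 ≤ Real.log (1 / lam) := Real.log_nonneg (by rw [le_div_iff₀ hl0]; linarith)
    linarith
  -- the three functions
  set g := Mop q c (us s0 N y) with hg
  have hgB : BM g := hMU N hs0N
  have hgg : BM (fun t => g t * g t) := (hLBM.1 _ _ hgB hgB).2.2
  set F1 : ℕ → ℝ → ℝ := fun s x => Mop q c (us s0 s y) x - Es s (Mop q c (us s0 s y)) x with hF1
  set F2 : ℕ → ℝ → ℝ := fun s => Es s (Mop q c (fun x => us s0 N y x - us s0 s y x)) with hF2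
  have hBF1 : ∀ s ∈ Finset.Icc s0 N, BM (F1 s) := by
    intro s hs
    have hs' := (Finset.mem_Icc.mp hs).1
    exact (hLBM.1 _ _ (hMU s hs') (hLBM.2.2.2.1 s _ (hMU s hs')).1).2.1
  have hBF2 : ∀ s ∈ Finset.Icc s0 N, BM (F2 s) := by
    intro s hs
    have hs' := (Finset.mem_Icc.mp hs).1
    exact (hLBM.2.2.2.1 s _ (hLBM.2.2.2.2.2 q c _ (hLBM.1 _ _ (hU N hs0N) (hU s hs')).2.1)).1
  have hsq := H1 lam q c s0 N hl0 hl1 h10 hs0N hc hGAP y hy hyS2
  have hA1 := LMX_markov hLBM (Finset.Icc s0 N) F1 hBF1 (th ^ 2 / 9) (by positivity)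
  have hA2 := LMX_markov hLBM (Finset.Icc s0 N) F2 hBF2 (th ^ 2 / 9) (by positivity)
  have hμ : 0 < (th / 12) ^ 2 := by positivity
  have hA0 := hLDM (fun t => g t * g t) ((th / 12) ^ 2) s0 N hgg (fun x => mul_self_nonneg _) hμ
  set A0 := {x : ℝ | ∃ s : ℕ, s0 ≤ s ∧ s ≤ N ∧ (th / 12) ^ 2 < 2 ^ s * ∫ t in cell s (ci s x), g t * g t} with hA0d
  set A1 := {x : ℝ | th ^ 2 / 9 ≤ ∑ s ∈ Finset.Icc s0 N, F1 s x ^ 2} with hA1d
  set A2 := {x : ℝ | th ^ 2 / 9 ≤ ∑ s ∈ Finset.Icc s0 N, F2 s x ^ 2} with hA2d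
  have hA0fin : volume A0 ≠ ⊤ := by
    have hsub : A0 ⊆ Set.Icc (-1 : ℝ) 2 := by
      rintro x ⟨s, -, -, hx⟩
      by_contra hx'
      have h0 : ∫ t in cell s (ci s x), g t * g t = 0 := by
        refine setIntegral_eq_zero_of_forall_eq_zero fun t ht => ?_
        have h1 := LMX_near s x t ht
        rw [abs_lt] at h1
        have h2 : g t = 0 := by
          refine hgB.2.2 t fun h3 => hx' ?_
          rw [Set.mem_Icc] at h3 ⊢
          constructor <;> linarith [h3.1, h3.2, h1.1, h1.2]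
        rw [h2]
        ring
      rw [h0, mul_zero] at hx
      linarith
    exact ne_top_of_le_ne_top (by rw [Real.volume_Icc]; exact ENNReal.ofReal_ne_top) (measure_mono hsub)
  have hincl : {x : ℝ | ∃ s : ℕ, s0 ≤ s ∧ s ≤ N ∧ th < |Mop q c (us s0 s y) x|} ⊆ A0 ∪ (A1 ∪ A2) := by
    rintro x ⟨s, hs1, hs2, hx⟩
    by_contra hno
    rw [Set.mem_union, Set.mem_union, not_or, not_or] at hno
    obtain ⟨h0, h1, h2⟩ := hno
    rw [hA1d, Set.mem_setOf_eq, not_le] at h1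
    rw [hA2d, Set.mem_setOf_eq, not_le] at h2
    have hmem : s ∈ Finset.Icc s0 N := Finset.mem_Icc.mpr ⟨hs1, hs2⟩
    have h1' : F1 s x ^ 2 < (th / 3) ^ 2 := by
      have := Finset.single_le_sum (f := fun r => F1 r x ^ 2) (fun r _ => sq_nonneg _) hmem
      have h9 : (th / 3) ^ 2 = th ^ 2 / 9 := by ring
      rw [h9]
      exact lt_of_le_of_lt this h1
    have h2' : F2 s x ^ 2 < (th / 3) ^ 2 := by
      have := Finset.single_le_sum (f := fun r => F2 r x ^ 2) (fun r _ => sq_nonneg _) hmem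
      have h9 : (th / 3) ^ 2 = th ^ 2 / 9 := by ring
      rw [h9]
      exact lt_of_le_of_lt this h2
    have h1a : |F1 s x| < th / 3 := abs_lt_of_sq_lt_sq h1' (by positivity)
    have h2a : |F2 s x| < th / 3 := abs_lt_of_sq_lt_sq h2' (by positivity)
    have h3 : 2 ^ s * ∫ t in cell s (ci s x), |g t| ≤ th / 12 := by
      refine LMX_avg s _ g (th / 12) (by positivity) (hLBM.2.1 1 _ (hLBM.2.1 1 _ hgB).2.1).2.2 (hLBM.2.1 1 _ hgg).2.2 ?_
      by_contra hcon
      rw [not_le] at hcon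
      exact h0 ⟨s, hs1, hs2, hcon⟩
    have h4 : |Es s g x| ≤ th / 3 := by
      have := hLEB.1 s g x hgB
      rw [mul_assoc] at this
      linarith
    have h5 : Es s g x = Es s (Mop q c (us s0 s y)) x + F2 s x := by
      have h6 : g = fun z => Mop q c (us s0 s y) z + Mop q c (fun t => us s0 N y t - us s0 s y t) z := by
        funext z
        rw [hg, ← LMX_Mop_add]
        congr 1
        funext t
        ring
      rw [h6]
      exact (hLEA.2.2.2.1 s _ _ (hMU s hs1) (hLBM.2.2.2.2.2 q c _ (hLBM.1 _ _ (hU N hs0N) (hU s hs1)).2.1) x).1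
    have h7 : Mop q c (us s0 s y) x = F1 s x + (Es s g x - F2 s x) := by
      rw [h5, hF1]
      ring
    have h8 : |Mop q c (us s0 s y) x| ≤ |F1 s x| + (|Es s g x| + |F2 s x|) := by
      rw [h7]
      exact (abs_add_le _ _).trans (add_le_add le_rfl (abs_sub _ _))
    linarith
  have hUN : nsq (us s0 N y) ≤ nsq y := by
    have := hL2 s0 N hs0N
    rw [this.2.2.2.2.1]
    exact this.2.2.2.2.2
  have hny : 0 ≤ nsq y := integral_nonneg fun x => sq_nonneg _
  have hgn : nsq g ≤ K2 * (lam * Lg lam) ^ 2 * nsq y := by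
    have hS2 : S2 (us s0 N y) := by
      intro x hx
      have h1 : Es N y x = 0 := (hL4 N (h10.trans hs0N)).2.2 hsup x (fun h => hx (by
        rw [Set.mem_Icc] at h ⊢
        constructor <;> linarith [h.1, h.2]))
      have h2 : Es s0 y x = 0 := (hL4 s0 h10).2.2 hsup x (fun h => hx (by
        rw [Set.mem_Icc] at h ⊢
        constructor <;> linarith [h.1, h.2]))
      unfold us
      rw [h1, h2, sub_zero]
    have h1 := H2 lam q c s0 N hl0 hl1 h10 hc hGAP (us s0 N y) N le_rfl (hL2 s0 N hs0N).2.1 hS2 (hL2 s0 N hs0N).2.2.2.1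
    have h2 : K2 * lam ^ 2 * Lg lam ≤ K2 * (lam * Lg lam) ^ 2 := by
      have h3 : Lg lam ≤ Lg lam ^ 2 := by nlinarith
      have h4 : 0 ≤ K2 * lam ^ 2 := by positivity
      calc K2 * lam ^ 2 * Lg lam ≤ K2 * lam ^ 2 * Lg lam ^ 2 := mul_le_mul_of_nonneg_left h3 h4
        _ = K2 * (lam * Lg lam) ^ 2 := by ring
    calc nsq g ≤ K2 * lam ^ 2 * Lg lam * nsq (us s0 N y) := h1
      _ ≤ K2 * (lam * Lg lam) ^ 2 * nsq (us s0 N y) := mul_le_mul_of_nonneg_right h2 (integral_nonneg fun x => sq_nonneg _)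
      _ ≤ K2 * (lam * Lg lam) ^ 2 * nsq y := mul_le_mul_of_nonneg_left hUN (by positivity)
  have hgsq : ∫ x, g x * g x = nsq g := by
    unfold nsq
    refine integral_congr_ae (Filter.Eventually.of_forall fun x => ?_)
    show g x * g x = g x ^ 2
    ring
  have hfinal : volume.real {x : ℝ | ∃ s : ℕ, s0 ≤ s ∧ s ≤ N ∧ th < |Mop q c (us s0 s y) x|} ≤
      volume.real A0 + (volume.real A1 + volume.real A2) := by
    have hfin : volume (A0 ∪ (A1 ∪ A2)) ≠ ⊤ :=
      ne_top_of_le_ne_top (ENNReal.add_ne_top.mpr ⟨hA0fin, ENNReal.add_ne_top.mpr ⟨hA1.1, hA2.1⟩⟩)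
        ((measure_union_le _ _).trans (add_le_add le_rfl (measure_union_le _ _)))
    calc volume.real {x : ℝ | ∃ s : ℕ, s0 ≤ s ∧ s ≤ N ∧ th < |Mop q c (us s0 s y) x|}
        ≤ volume.real (A0 ∪ (A1 ∪ A2)) := measureReal_mono hincl hfin
      _ ≤ volume.real A0 + volume.real (A1 ∪ A2) := measureReal_union_le _ _
      _ ≤ volume.real A0 + (volume.real A1 + volume.real A2) := add_le_add le_rfl (measureReal_union_le _ _)
  have e0 : volume.real A0 ≤ 144 * K2 * (lam * Lg lam) ^ 2 / th ^ 2 * nsq y := by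
    refine hA0.trans ?_
    rw [hgsq]
    calc 1 / (th / 12) ^ 2 * nsq g ≤ 1 / (th / 12) ^ 2 * (K2 * (lam * Lg lam) ^ 2 * nsq y) :=
          mul_le_mul_of_nonneg_left hgn (by positivity)
      _ = 144 * K2 * (lam * Lg lam) ^ 2 / th ^ 2 * nsq y := by
          field_simp
          ring
  have e1 : volume.real A1 ≤ 9 * K1 * (lam * Lg lam) ^ 2 / th ^ 2 * nsq y := by
    refine hA1.2.trans ?_
    calc 1 / (th ^ 2 / 9) * ∑ s ∈ Finset.Icc s0 N, nsq (F1 s) ≤ 1 / (th ^ 2 / 9) * (K1 * (lam * Lg lam) ^ 2 * nsq y) :=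
          mul_le_mul_of_nonneg_left hsq.1 (by positivity)
      _ = 9 * K1 * (lam * Lg lam) ^ 2 / th ^ 2 * nsq y := by
          field_simp
  have e2 : volume.real A2 ≤ 9 * K1 * (lam * Lg lam) ^ 2 / th ^ 2 * nsq y := by
    refine hA2.2.trans ?_
    calc 1 / (th ^ 2 / 9) * ∑ s ∈ Finset.Icc s0 N, nsq (F2 s) ≤ 1 / (th ^ 2 / 9) * (K1 * (lam * Lg lam) ^ 2 * nsq y) :=
          mul_le_mul_of_nonneg_left hsq.2 (by positivity)
      _ = 9 * K1 * (lam * Lg lam) ^ 2 / th ^ 2 * nsq y := by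
          field_simp
  calc volume.real {x : ℝ | ∃ s : ℕ, s0 ≤ s ∧ s ≤ N ∧ th < |Mop q c (us s0 s y) x|}
      ≤ volume.real A0 + (volume.real A1 + volume.real A2) := hfinal
    _ ≤ 144 * K2 * (lam * Lg lam) ^ 2 / th ^ 2 * nsq y + (9 * K1 * (lam * Lg lam) ^ 2 / th ^ 2 * nsq y +
        9 * K1 * (lam * Lg lam) ^ 2 / th ^ 2 * nsq y) := add_le_add e0 (add_le_add e1 e2)
    _ = (18 * K1 + 144 * K2) * (lam * Lg lam) ^ 2 / th ^ 2 * nsq y := by ring

end Pool.Agent.helper90.DH
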