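import Pool.Agent.helper5.DH.Spec
import Pool.Agent.helper98.ILF.Density

set_option autoImplicit false

open Complex Metric Set Filter Topology MeasureTheory
open Pool.Agent.helper98.ILF Pool.Agent.helper16.Multibrot
open HY (UD T S hd UN RM VV SG Orb fz)

noncomputable section

namespace DH

/-- CVX: change of variables with constants. -/
theorem CVX (h3 : V3.KO3_stmt) : CVX_stmt := by
  obtain ⟨C, hC, H⟩ := h3 (1 / 2) (by norm_num) (by norm_num)
  refine ⟨C ^ 2, one_le_pow₀ hC, ?_⟩
  intro X h s hd hinj hm hb hs hs2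
  have hC0 : 0 < C := by linarith
  have hsub : ball (0 : ℂ) s ⊆ UD := ball_subset_ball (by linarith)
  have hBm : MeasurableSet (ball (0 : ℂ) s) := measurableSet_ball
  have hdist : ∀ y ∈ ball (0 : ℂ) s, ‖deriv X y‖ ≤ C * ‖deriv X 0‖ ∧
      ‖deriv X 0‖ ≤ C * ‖deriv X y‖ := by
    intro y hy
    have h1 := (H X 0 1 one_pos hd hinj).2 y (ball_subset_ball (by linarith) hy)
    exact ⟨h1.1, h1.2.1⟩
  have hfd : ∀ y ∈ ball (0 : ℂ) s, HasFDerivWithinAt X
      ((ContinuousLinearMap.toSpanSingleton ℂ (deriv X y)).restrictScalars ℝ : ℂ →L[ℝ] ℂ)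
      (ball 0 s) y := by
    intro y hy
    exact (((hd.differentiableAt (isOpen_ball.mem_nhds (hsub hy))).hasDerivAt.hasFDerivAt).restrictScalars
      ℝ).hasFDerivWithinAt
  have h1 := integral_image_eq_integral_abs_det_fderiv_smul volume hBm hfd (hinj.mono hsub) h
  have h2 : ∫ z in X '' ball (0 : ℂ) s, h z = ∫ y in ball (0 : ℂ) s, ‖deriv X y‖ ^ 2 * h (X y) := by
    rw [h1]
    refine setIntegral_congr_fun hBm fun y _ => ?_
    rw [det_smul, abs_of_nonneg (by positivity), smul_eq_mul]
  have hXm : AEMeasurable X (volume.restrict (ball (0 : ℂ) s)) :=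
    (hd.continuousOn.mono hsub).aemeasurable hBm
  have hXh : AEStronglyMeasurable (fun y => h (X y)) (volume.restrict (ball (0 : ℂ) s)) :=
    (hm.comp_aemeasurable hXm).aestronglyMeasurable
  have hint1 : IntegrableOn (fun y => h (X y)) (ball (0 : ℂ) s) := by
    refine ⟨hXh, HasFiniteIntegral.restrict_of_bounded (C := 2) measure_ball_lt_top ?_⟩
    refine Eventually.of_forall fun y => ?_
    rw [Real.norm_eq_abs, abs_of_nonneg (hb _).1]
    exact (hb _).2
  have hint2 : IntegrableOn (fun y => ‖deriv X y‖ ^ 2 * h (X y)) (ball (0 : ℂ) s) := by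
    refine ⟨?_, HasFiniteIntegral.restrict_of_bounded (C := (C * ‖deriv X 0‖) ^ 2 * 2)
      measure_ball_lt_top ?_⟩
    · exact (((measurable_deriv X).norm.pow_const 2).aestronglyMeasurable).mul hXh
    · rw [ae_restrict_iff' hBm]
      refine Eventually.of_forall fun y hy => ?_
      rw [Real.norm_eq_abs, abs_of_nonneg (mul_nonneg (by positivity) (hb _).1)]
      exact mul_le_mul (pow_le_pow_left₀ (norm_nonneg _) (hdist y hy).1 2) (hb _).2 (hb _).1
        (by positivity)
  rw [h2]
  constructor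
  · calc (∫ y in ball (0 : ℂ) s, h (X y)) * ‖deriv X 0‖ ^ 2
        = ∫ y in ball (0 : ℂ) s, ‖deriv X 0‖ ^ 2 * h (X y) := by
          rw [integral_const_mul, mul_comm]
      _ ≤ ∫ y in ball (0 : ℂ) s, C ^ 2 * (‖deriv X y‖ ^ 2 * h (X y)) := by
          refine setIntegral_mono_on (hint1.const_mul _) (hint2.const_mul _) hBm fun y hy => ?_
          rw [← mul_assoc, ← mul_pow]
          exact mul_le_mul_of_nonneg_right (pow_le_pow_left₀ (norm_nonneg _) (hdist y hy).2 2)
            (hb _).1
      _ = _ := integral_const_mul _ _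
  · calc ∫ y in ball (0 : ℂ) s, ‖deriv X y‖ ^ 2 * h (X y)
        ≤ ∫ y in ball (0 : ℂ) s, C ^ 2 * ‖deriv X 0‖ ^ 2 * h (X y) := by
          refine setIntegral_mono_on hint2 (hint1.const_mul _) hBm fun y hy => ?_
          rw [← mul_pow]
          exact mul_le_mul_of_nonneg_right (pow_le_pow_left₀ (norm_nonneg _) (hdist y hy).1 2)
            (hb _).1
      _ = _ := integral_const_mul _ _

end DH
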