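import Pool.Agent.helper90.DH.Iface

/-!
# Project d2: (MP_5823cb_al), part L (`L^2` theory): spec of helper57

Rules: module `XX` is `theorem XX (hYY : YY_stmt) … : XX_stmt` in the file `Pool/Agent/<seat>/DH/XX.lean`, first line `import Pool.Agent.helper57.DH.SpecL`, then `set_option autoImplicit false`,
`open Filter Topology MeasureTheory`, `open scoped commutatorElement`, `namespace Pool.Agent.helper90.DH`, `open Pool.Agent.helper64.D2`. Auxiliary lemmas are prefixed `XX_`. Hypotheses = the statements named under (uses …)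
(you may use fewer, not more). No `sorry`, no double quotes, no `#` commands, no `native_decide`, no `axiom`, no `convert`. All constants `K` are absolute; take them as large as you like.
Cells `cell s k = [k/2^s,(k+1)/2^s)`, `ci s x` = number of the cell of level `s` containing `x`, so `x ∈ cell s k ↔ ci s x = k`; `Es s f` is the `L^2` projection of `f` to the functions affine on every cell of level `s`:
on the cell `X` with centre `c` it is `∫_X f(t) 2^s (1 + 12·4^s (x-c)(t-c)) dt`, kernel of absolute value at most `4·2^s`.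
-/

set_option autoImplicit false

open Filter Topology MeasureTheory
open scoped commutatorElement

namespace Pool.Agent.helper90.DH

open Pool.Agent.helper64.D2

/-- Bounded measurable functions which vanish outside `[0,1]`. -/
def BM (f : ℝ → ℝ) : Prop := Measurable f ∧ (∃ B : ℝ, ∀ x, |f x| ≤ B) ∧ ∀ x, x ∉ Set.Icc (0 : ℝ) 1 → f x = 0

/-- `f` vanishes outside `[9/40,31/40]`. -/
def S2 (f : ℝ → ℝ) : Prop := ∀ x : ℝ, x ∉ Set.Icc (9 / 40 : ℝ) (31 / 40) → f x = 0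

/-- `f` vanishes outside `[6/25,19/25]`. -/
def S3 (f : ℝ → ℝ) : Prop := ∀ x : ℝ, x ∉ Set.Icc (6 / 25 : ℝ) (19 / 25) → f x = 0

/-- `f` vanishes outside `[23/100,77/100]`. -/
def S4 (f : ℝ → ℝ) : Prop := ∀ x : ℝ, x ∉ Set.Icc (23 / 100 : ℝ) (77 / 100) → f x = 0

/-- The number `|f(left end)| + 2|f(centre)|` of the cell of level `s` containing `x`; it dominates `|f|` on the cell if `f` is affine there. -/
noncomputable def Bg (s : ℕ) (f : ℝ → ℝ) (x : ℝ) : ℝ := |f ((ci s x : ℝ) / 2 ^ s)| + 2 * |f (mid s x)|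

/-- Points at distance at most `ρ` from the grid of level `s`. -/
def Gr (s : ℕ) (ρ : ℝ) : Set ℝ := {x | ∃ k : ℤ, |x - (k : ℝ) / 2 ^ s| ≤ ρ}

/-- The loss `1 + log (1/lam)`. -/
noncomputable def Lg (lam : ℝ) : ℝ := 1 + Real.log (1 / lam)

/-- `E_s y - E_(s0) y`. -/
noncomputable def us (s0 s : ℕ) (y : ℝ → ℝ) (x : ℝ) : ℝ := Es s y x - Es s0 y x

/-! ## Toolkit -/

/-- **LBM** (short/medium). Closure properties of the class `BM`.
Proof. `PA s f` is measurable: it is a countable union of affine functions on the measurable cells (`measurable_of_restrict` style, or: `x ↦ ci s x` is measurable into `ℤ` and `f x = a (ci s x) + b (ci s x) * x` with functions `a b : ℤ → ℝ` from choice,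
and every function on `ℤ` is measurable). If moreover `f = 0` outside `[0,1]` only the cells `0 ≤ k ≤ 2^s` matter, so `f` is bounded by a finite maximum of `|a_k| + |b_k|`. `Es s f` is `PA s` by definition and vanishes outside `[0,1]` because `0` and `1`
are grid points (the cell of a point `x > 1` lies in `[1,∞)`; `f` is there zero except perhaps at the point `1`, so all integrals vanish; a point `x < 0` has its cell in `(-∞,0)`). `Ds` is a difference. `0 ≤ fr ≤ 1`, measurable (`measurable_fract`-like).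
`ev c` is continuous, and `ev c x = x` outside `(0,1)`, it maps `[0,1]` to `[0,1]` (monotone, bijective). `Mop` is a finite sum divided by a number. Integrable: bounded, measurable, zero outside a set of finite measure. -/
def LBM_stmt : Prop :=
  (∀ f g : ℝ → ℝ, BM f → BM g → BM (fun x => f x + g x) ∧ BM (fun x => f x - g x) ∧ BM (fun x => f x * g x)) ∧
  (∀ (a : ℝ) (f : ℝ → ℝ), BM f → BM (fun x => a * f x) ∧ BM (fun x => |f x|) ∧ Integrable f) ∧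
  (∀ (s : ℕ) (f : ℝ → ℝ), PA s f → (∀ x, x ∉ Set.Icc (0 : ℝ) 1 → f x = 0) → BM f) ∧
  (∀ (s : ℕ) (f : ℝ → ℝ), BM f → BM (Es s f) ∧ BM (Ds s f) ∧ BM (fun x => fr s x * f x)) ∧
  (∀ (c : DD) (f : ℝ → ℝ), BM f → BM (fun x => f (ev c x))) ∧
  ∀ (q : ℕ) (c : ℕ → DD) (f : ℝ → ℝ), BM f → BM (Mop q c f)

/-- **LCS** (short). Cauchy-Schwarz and Minkowski for the class `BM` (all functions are in `L^2`: `MemLp f 2`; `nsq f = ‖f‖^2`, e.g. through `MeasureTheory.L2.inner_def`, or directly from `∫ (f + t g)^2 ≥ 0`: discriminant). -/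
def LCS_stmt : Prop :=
  (∀ f g : ℝ → ℝ, BM f → BM g → (∫ x, f x * g x) ^ 2 ≤ nsq f * nsq g) ∧
  (∀ f g : ℝ → ℝ, BM f → BM g → √(nsq (fun x => f x + g x)) ≤ √(nsq f) + √(nsq g)) ∧
  (∀ (I : Finset ℕ) (f : ℕ → ℝ → ℝ), (∀ i ∈ I, BM (f i)) → √(nsq (fun x => ∑ i ∈ I, f i x)) ≤ ∑ i ∈ I, √(nsq (f i))) ∧
  (∀ f g : ℝ → ℝ, BM f → BM g → (∀ x, |f x| ≤ |g x|) → nsq f ≤ nsq g) ∧
  ∀ (a : ℝ) (f : ℝ → ℝ), nsq (fun x => a * f x) = a ^ 2 * nsq f

/-- **LEA** (medium). Algebra of the operators `Es`.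
Proof. On a cell of level `s` the numbers `ci s x`, `mid s x` are constant, so `Es s f` is affine on every cell. If `f = a + b t` on the cell `X` of `x` with centre `m`, then `∫_X f = 2^-s (a + b m)`, `∫_X (t - m) f = b 2^(-3s)/12`, so `Es s f x = f x`.
Linearity: linearity of the integrals (`BM` functions are integrable). Tower `s ≤ r`: on a cell `X` of level `s` the functions `f` and `Es r f` have the same integrals against `1` and against `t - m` (sum over the cells `Z ⊆ X` of level `r`: `∫_Z Es r f = ∫_Z f`,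
`∫_Z (t - m_Z) Es r f = ∫_Z (t - m_Z) f`, and `t - m = (t - m_Z) + const` on `Z`). `Es r (Es s f) = Es s f` because `PA s` implies `PA r`. Locality: the definition only uses `f` on the cell of `x`. -/
def LEA_stmt : Prop :=
  (∀ (s r : ℕ) (f : ℝ → ℝ), s ≤ r → PA s f → PA r f) ∧
  (∀ (s : ℕ) (f : ℝ → ℝ), PA s (Es s f)) ∧
  (∀ (s : ℕ) (f : ℝ → ℝ), PA s f → ∀ x, Es s f x = f x) ∧
  (∀ (s : ℕ) (f g : ℝ → ℝ), BM f → BM g → ∀ x, Es s (fun z => f z + g z) x = Es s f x + Es s g x ∧ Es s (fun z => f z - g z) x = Es s f x - Es s g x) ∧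
  (∀ (s : ℕ) (a : ℝ) (f : ℝ → ℝ) (x : ℝ), Es s (fun z => a * f z) x = a * Es s f x) ∧
  (∀ (s r : ℕ) (f : ℝ → ℝ), BM f → s ≤ r → ∀ x, Es s (Es r f) x = Es s f x ∧ Es r (Es s f) x = Es s f x) ∧
  ∀ (s : ℕ) (f g : ℝ → ℝ) (x : ℝ), (∀ t ∈ cell s (ci s x), f t = g t) → Es s f x = Es s g x

/-- **LCE** (short/medium). Sums over cells: the integral over `ℝ` is the sum of the integrals over the cells of level `s` (finitely many for functions vanishing outside `[0,1]`: `0 ≤ k ≤ 2^s`), so cell wise inequalities integrate. Same for the sub-cells of a cell. -/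
def LCE_stmt : Prop :=
  (∀ (s : ℕ) (f g : ℝ → ℝ), BM f → BM g → (∀ k : ℤ, ∫ t in cell s k, f t ≤ ∫ t in cell s k, g t) → ∫ t, f t ≤ ∫ t, g t) ∧
  (∀ (s r : ℕ) (k : ℤ) (f : ℝ → ℝ), BM f → s ≤ r →
    ∫ t in cell s k, f t = ∑ l ∈ Finset.Ico (k * 2 ^ (r - s)) ((k + 1) * 2 ^ (r - s)), ∫ t in cell r l, f t)

/-- **LEP** (medium; uses LBM, LCS, LEA, LCE). `Es s` is the orthogonal projection.
Proof. Self-adjoint: on every cell both sides equal `2^s ∫f ∫g + 12·8^s ∫(t-m)f ∫(t-m)g` (integrals over the cell); apply LCE to both inequalities. Then `∫ (f - Es f) Es f = ∫ f Es f - ∫ f Es (Es f) = 0`, which gives Pythagoras, and with `g` affine on the cells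
`∫ (f - Es f)(Es f - g) = 0`, which gives the best approximation. -/
def LEP_stmt : Prop :=
  (∀ (s : ℕ) (f g : ℝ → ℝ), BM f → BM g → ∫ x, Es s f x * g x = ∫ x, f x * Es s g x) ∧
  (∀ (s : ℕ) (f : ℝ → ℝ), BM f → nsq f = nsq (Es s f) + nsq (fun x => f x - Es s f x)) ∧
  ∀ (s : ℕ) (f g : ℝ → ℝ), BM f → BM g → PA s g → nsq (fun x => f x - Es s f x) ≤ nsq (fun x => f x - g x)

/-- **LEB** (short). Pointwise bounds: the kernel of `Es s` has absolute value at most `4·2^s`; support: if `f = 0` outside `[a,b]` then `Es s f = 0` outside `[a - 2^-s, b + 2^-s]`. -/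
def LEB_stmt : Prop :=
  (∀ (s : ℕ) (f : ℝ → ℝ) (x : ℝ), BM f → |Es s f x| ≤ 4 * 2 ^ s * ∫ t in cell s (ci s x), |f t|) ∧
  (∀ (s : ℕ) (f : ℝ → ℝ) (B : ℝ), BM f → (∀ x, |f x| ≤ B) → ∀ x, |Es s f x| ≤ 4 * B) ∧
  ∀ (s : ℕ) (f : ℝ → ℝ) (a b : ℝ), (∀ x, x ∉ Set.Icc a b → f x = 0) → ∀ x, x ∉ Set.Icc (a - 1 / 2 ^ s) (b + 1 / 2 ^ s) → Es s f x = 0

/-- **LEN** (medium; uses LBM, LCE). Affine functions on cells.
Proof. Let `f = a + b t` on the cell `[l,l+h)`, `h = 2^-s`. (1) the affine function at the right end is `2 f(centre) - f(left)`, and an affine function is bounded by the maximum at the two ends. (2) `|b| h = |2 f(centre) - 2 f(left)| ≤ 2 Bg`. (3) with `m` the centre,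
`∫ f^2 = h (f(m)^2 + (b h)^2/12)`, `f(left) = f(m) - b h/2`, so `f(left)^2 ≤ 4 ((b h)^2/12 + f(m)^2)` (Cauchy-Schwarz `(u + √3 v)^2 ≤ 4 (u^2 + v^2)`), `f(m)^2 ≤ 4·…`, and `(|x| + 2|y|)^2 ≤ 9 max`. (4) (LCE) on every cell `Bg` is constant and `Gr s ρ ∩ cell` has measure at
most `2ρ`; (5) `Gr` replaced by everything. (6) `Bg s f` is constant on cells and zero outside `[0,1]`. (7) as (1), (2) with the bound `B` on the cell (let the second point tend to the right end). -/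
def LEN_stmt : Prop := ∀ (s : ℕ) (f : ℝ → ℝ), PA s f →
  (∀ x, |f x| ≤ Bg s f x) ∧
  (∀ x z, ci s x = ci s z → |f x - f z| ≤ 2 * 2 ^ s * Bg s f x * |x - z|) ∧
  (BM f → BM (Bg s f) ∧ (∀ x, Bg s f x ^ 2 ≤ 36 * 2 ^ s * ∫ t in cell s (ci s x), f t ^ 2) ∧ nsq (Bg s f) ≤ 36 * nsq f ∧
    ∀ ρ : ℝ, 0 ≤ ρ → ∫ x, (Gr s ρ).indicator (fun z => Bg s f z ^ 2) x ≤ 72 * ρ * 2 ^ s * nsq f) ∧
  ∀ B : ℝ, (∀ x, |f x| ≤ B) → (∀ x, Bg s f x ≤ 3 * B) ∧ ∀ x z, ci s x = ci s z → |f x - f z| ≤ 2 * 2 ^ s * B * |x - z|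

/-- **LCV** (medium; uses LBM, LCS). Change of variables.
Proof. `ev c` is `C^2`, `(ev c)' = 1` outside `(0,1)` and `|(ev c)''| ≤ 1/50`, so `|(ev c)' - 1| ≤ 1/50` everywhere (mean value inequality from the point `0` or `1`), which gives the first line. `ev c⁻¹` is the inverse function, `C^2`, with derivative `1/(ev c)'(ev c⁻¹ z) ∈ [50/51,50/49]` and second derivative
`-(ev c)''/((ev c)')^3`, so of absolute value at most `1/40` if `Sz c (1/50)`, and at most `1/50` if `Sz c (1/100)`. Change of variables: `MeasureTheory.integral_image_eq_integral_abs_deriv_smul` on `univ` (injective, onto). The last line: `(Mop f)^2 ≤ (1/q) Σ (f ∘ c_i)^2` pointwise. -/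
def LCV_stmt : Prop :=
  (∀ c : DD, Sz c (1 / 50) → ∀ x y : ℝ, x ≤ y → 49 / 50 * (y - x) ≤ ev c y - ev c x ∧ ev c y - ev c x ≤ 51 / 50 * (y - x)) ∧
  (∀ c : DD, Sz c (1 / 100) → Sz c⁻¹ (1 / 50)) ∧
  (∀ c : DD, Sz c (1 / 50) → (∀ z, 49 / 50 ≤ deriv (ev c⁻¹) z ∧ deriv (ev c⁻¹) z ≤ 51 / 49) ∧
    (∀ z z', |deriv (ev c⁻¹) z - deriv (ev c⁻¹) z'| ≤ 1 / 40 * |z - z'|)) ∧
  (∀ (c : DD) (F : ℝ → ℝ), Sz c (1 / 50) → ∫ x, F (ev c x) = ∫ z, F z * deriv (ev c⁻¹) z) ∧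
  (∀ (c : DD) (f : ℝ → ℝ), Sz c (1 / 50) → BM f → nsq (fun x => f (ev c x)) ≤ 2 * nsq f ∧ ∫ x, |f (ev c x)| ≤ 2 * ∫ x, |f x|) ∧
  ∀ (q : ℕ) (c : ℕ → DD) (f : ℝ → ℝ), (∀ i < q, Sz (c i) (1 / 100)) → BM f → nsq (Mop q c f) ≤ 2 * nsq f

/-- **LLV** (medium; uses LBM, LEA, LEP, LEB). Levels.
Proof. Telescoping. `Ds r f = Es (r+1) f - Es r f` is `PA (r+1)`, and `Es r (Ds r f) = 0` by the tower property; for `r < r'` `∫ Ds r f · Ds r' f = ∫ Es r' (Ds r f) · Ds r' f = ∫ Ds r f · Es r' (Ds r' f) = 0`, so the squares add up.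
The last bound is Bessel: `us s0 s f = Es s (f - Es s0 f)`. Supports: LEB with `2^-r ≤ 2^-10 < 1/1000`. -/
def LLV_stmt : Prop := ∀ f : ℝ → ℝ, BM f →
  (∀ r : ℕ, PA (r + 1) (Ds r f) ∧ BM (Ds r f) ∧ ∀ x, Es r (Ds r f) x = 0) ∧
  (∀ s0 s : ℕ, s0 ≤ s → BM (us s0 s f) ∧ PA s (us s0 s f) ∧ (∀ x, us s0 s f x = ∑ r ∈ Finset.Ico s0 s, Ds r f x) ∧ (∀ x, Es s0 (us s0 s f) x = 0) ∧
    nsq (us s0 s f) = ∑ r ∈ Finset.Ico s0 s, nsq (Ds r f) ∧ ∑ r ∈ Finset.Ico s0 s, nsq (Ds r f) ≤ nsq f) ∧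
  (∀ s0 N : ℕ, s0 ≤ N → PA N f → (∀ x, Es s0 f x = 0) → (∀ x, f x = ∑ r ∈ Finset.Ico s0 N, Ds r f x) ∧ nsq f = ∑ r ∈ Finset.Ico s0 N, nsq (Ds r f)) ∧
  (∀ r : ℕ, 10 ≤ r → (S2 f → Su (Ds r f)) ∧ ((∀ x, x ∉ Set.Icc (1 / 4 : ℝ) (3 / 4) → f x = 0) → S3 (Ds r f)) ∧
    ((∀ x, x ∉ Set.Icc (1 / 4 : ℝ) (3 / 4) → f x = 0) → S3 (Es r f)))

/-- **LOA** (medium; uses LBM, LCS, LEA, LEP, LEN, LCV, LCE). A function affine on the cells of level `p`, composed with a near-identity map, is almost affine on the cells of level `r ≥ p`.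
Proof. Put `h = g ∘ ev c`. By LEP (best approximation) it suffices to find a `PA r`, `BM` function `ℓ` with `nsq (h - ℓ) ≤ K 2^-(r-p) nsq g`; take `ℓ(x) = h(left end of the cell of level r of x)`. If `ev c x` and `ev c (left)` are in the same cell of level `p` then
`|h x - ℓ x| ≤ 2·2^p Bg p g (ev c x)·(51/50) 2^-r`. Otherwise a grid point `b` of level `p` lies between them, so `|ev c x - b| ≤ (51/50) 2^-r =: ρ`, and `|h x - ℓ x| ≤ Bg p g (ev c x) + Bg p g (ev c x - 2ρ')`, where the cell of `ev c (left)`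
is the neighbouring cell (or the one after it if `r = p`; for `r ≤ p + 1` simply use `nsq (h - E_r h) ≤ nsq h ≤ 2 nsq g`). So for `r ≥ p+2` `(h - ℓ)^2 ≤ 20·4^(p-r) Bg(ev c x)^2 + 1[ev c x ∈ Gr p ρ] (2 Bg(ev c x)^2 + 2 Bg(ev c x - ρ)^2)`. Change variables (LCV, factor 2)
and use LEN: `nsq (Bg) ≤ 36 nsq g`, `∫_(Gr p ρ) Bg^2 ≤ 72 ρ 2^p nsq g`, and for the shifted term the set `Gr p ρ` shifted by `ρ` is contained in `Gr p (2ρ)`. -/
def LOA_stmt : Prop := ∃ K : ℝ, 1 ≤ K ∧ ∀ (c : DD) (g : ℝ → ℝ) (p r : ℕ), Sz c (1 / 50) → PA p g → BM g → p ≤ r →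
  nsq (fun x => g (ev c x) - Es r (fun z => g (ev c z)) x) ≤ K / 2 ^ (r - p) * nsq g

/-- **LOB** (medium; uses LOA, LBM, LCS, LEA, LEP, LCV). A function with vanishing moments on the cells of level `s`, composed with a near-identity map, has small projection to the level `r ≤ s`.
Proof. Put `h = f ∘ ev c`, `g = Es r h` (`PA r`, `BM`). `nsq g = ∫ h g` (LEP) `= ∫ f(z) G(z) dz`, `G(z) = g(ev c⁻¹ z) J(z)`, `J = deriv (ev c⁻¹)` (LCV with `F z = f z * g (ev c⁻¹ z)`). Since `Es s f = 0`, `∫ f · l = 0` for every `PA s`, `BM` function `l`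
(`∫ f l = ∫ f Es s l = ∫ Es s f · l`). Take `l(z) = J(left end of the cell of level s of z) · Es s (g ∘ ev c⁻¹)(z)` (it is `PA s`). `|G - l| ≤ |J| |g∘c⁻¹ - Es s (g∘c⁻¹)| + (1/40) 2^-s |Es s (g∘c⁻¹)|`, so by LOA for `c⁻¹` (`Sz c⁻¹ (1/50)`) and Minkowski
`√nsq(G - l) ≤ (K 2^-(s-r)/2 + 2^-s) √nsq g`; hence `nsq g ≤ √nsq f √nsq(G-l) ≤ K √nsq f 2^-(s-r)/2 √nsq g`, and divide by `√nsq g`. -/
def LOB_stmt : Prop := ∃ K : ℝ, 1 ≤ K ∧ ∀ (c : DD) (f : ℝ → ℝ) (s r : ℕ), Sz c (1 / 100) → BM f → (∀ x, Es s f x = 0) → r ≤ s →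
  nsq (Es r (fun z => f (ev c z))) ≤ K / 2 ^ (s - r) * nsq f

/-- **LYN** (short). Schur's test: `(Σ_r w a_r)^2 ≤ (Σ_r w)(Σ_r w a_r^2)` and `Σ_r w(|s-r|) ≤ 2W`. For natural numbers `|s-r| = (s-r)+(r-s)`. Second line: `a_s b_r ≤ (a_s^2 + b_r^2)/2`. -/
def LYN_stmt : Prop := ∀ (w a : ℕ → ℝ) (W : ℝ) (I I' : Finset ℕ), (∀ k, 0 ≤ w k) → (∀ r, 0 ≤ a r) → (∀ n, ∑ k ∈ Finset.range n, w k ≤ W) →
  ∑ s ∈ I, (∑ r ∈ I', w ((s - r) + (r - s)) * a r) ^ 2 ≤ (2 * W) ^ 2 * ∑ r ∈ I', a r ^ 2 ∧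
  ∑ s ∈ I, ∑ r ∈ I, w ((s - r) + (r - s)) * (a s * a r) ≤ 2 * W * ∑ r ∈ I, a r ^ 2

/-- **LSM** (short/medium). `Σ_k min (μ, C 2^-⌊k/4⌋) ≤ K μ (1 + log (1/lam))` for `μ = lam` and `μ = lam^2`.
Proof. `n1 = 4⌈log_2 (1/μ)⌉` terms are bounded by `μ`, the others form four geometric series with sum at most `8 C μ`. `log (1/lam^2) = 2 log (1/lam)`, `1 ≤ Lg`. -/
def LSM_stmt : Prop := ∀ C : ℝ, 1 ≤ C → ∃ K : ℝ, 1 ≤ K ∧ ∀ (lam : ℝ) (n : ℕ), 0 < lam → lam ≤ 1 / 2 →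
  ∑ k ∈ Finset.range n, min lam (C / 2 ^ (k / 4)) ≤ K * lam * Lg lam ∧ ∑ k ∈ Finset.range n, min (lam ^ 2) (C / 2 ^ (k / 4)) ≤ K * lam ^ 2 * Lg lam

/-- **LIP** (medium; uses LOA, LOB, LBM, LCS, LEA, LEP, LCV). Almost orthogonality of the levels.
Proof. Two maps `c, c'`, `r < s`, `p = r + 1 + (s - r - 1)/2` (if `s = r` Cauchy-Schwarz suffices): `∫ f(c x) g(c' x) = ∫ f∘c · Es p (g∘c') + ∫ f∘c · (g∘c' - Es p (g∘c')) = ∫ Es p (f∘c) · g∘c' + …`, so `≤ √(K/2^(s-p)) √nsq f √(2 nsq g) + √(2 nsq f) √(K/2^(p-r-1)) √nsq g`, and both exponents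
are at least `(s-r-1)/2`; `√(1/2^n) ≤ 1/2^(n/2)` (natural division), `((s-r-1)/2)/2 ≥ (s-r)/4 - 1`. Then average over the pairs of labels. -/
def LIP_stmt : Prop := ∃ C : ℝ, 1 ≤ C ∧ ∀ (q : ℕ) (c : ℕ → DD) (f g : ℝ → ℝ) (s r : ℕ), (∀ i < q, Sz (c i) (1 / 100)) → BM f → BM g → (∀ x, Es s f x = 0) → PA (r + 1) g → r ≤ s →
  |∫ x, Mop q c f x * Mop q c g x| ≤ C / 2 ^ ((s - r) / 4) * (√(nsq f) * √(nsq g))

/-- **FGA** = FGP in terms of `S2`, for every system with `Sz (c i) (1/100)` (medium; uses LIP, LYN, LSM, LBM, LCS, LLV, LCV). The full gap.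
Proof. If `N' ≤ s0` then `f = Es s0 f = 0`. Otherwise `f = Σ_(s0 ≤ r < N') D_r`, `D_r = Ds r f` satisfies `Su` (LLV), `PA (r+1)`, `Es r D_r = 0`, so `nsq (Mop D_r) ≤ lam^2 nsq D_r` (GAP). `nsq (Mop f) = Σ_(r,r') ∫ Mop D_r Mop D_r' ≤ Σ_(r,r') min (lam^2, C/2^(|r-r'|/4)) a_r a_r'`,
`a_r = √nsq D_r` (Cauchy-Schwarz and GAP, resp. LIP), and LYN + LSM. -/
def FGA_stmt : Prop := ∃ K : ℝ, 1 ≤ K ∧ ∀ (lam : ℝ) (q : ℕ) (c : ℕ → DD) (s0 N : ℕ), 0 < lam → lam ≤ 1 / 2 → 10 ≤ s0 → (∀ i < q, Sz (c i) (1 / 100)) →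
  (∀ s, s0 ≤ s → s < N → GAP q c s lam) → ∀ (f : ℝ → ℝ) (N' : ℕ), N' ≤ N → PA N' f → S2 f → (∀ x, Es s0 f x = 0) →
  nsq (Mop q c f) ≤ K * lam ^ 2 * Lg lam * nsq f

/-! ## Maximal function -/

/-- **LDM** (medium; uses LBM, LCE). The dyadic maximal inequality of weak type, finitely many levels.
Proof. For `x` in the set let `s(x)` be the least level with the property; the set is the disjoint union of the sets `A_s = {s(x) = s}`, each of which is a finite union of cells of level `s` (the condition at the levels `≤ s` is constant on the cells of level `s`; if the average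
over the cell is positive the cell meets `[0,1]`), and on each of them `|cell| = 2^-s < (1/μ) ∫_cell h`. Sum: `|A_s| ≤ (1/μ) ∫_(A_s) h`. -/
def LDM_stmt : Prop := ∀ (h : ℝ → ℝ) (μ : ℝ) (s0 N : ℕ), BM h → (∀ x, 0 ≤ h x) → 0 < μ →
  volume.real {x | ∃ s : ℕ, s0 ≤ s ∧ s ≤ N ∧ μ < 2 ^ s * ∫ t in cell s (ci s x), h t} ≤ 1 / μ * ∫ x, h x

/-- **LEL** (medium). Enlarging dyadic cells of many levels costs a factor `2r + 1`.
Proof. Only finitely many cells are involved (`A s ⊆ [0,2^s)`, `s < N`). Keep the cells which are not contained in another one of strictly lower level of the family: they are disjoint, every cell `cell s k` of the family is contained in a kept one `cell s' k'`, `s' ≤ s`, and then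
`[(k-r)/2^s,(k+1+r)/2^s] ⊆ [(k'-r)/2^s',(k'+1+r)/2^s']`. So the left side is at most `Σ_kept (2r+1)/2^s' = (2r+1) |⋃ kept|`. -/
def LEL_stmt : Prop := ∀ (r : ℝ) (s0 N : ℕ) (A : ℕ → Set ℤ), 0 ≤ r → (∀ s, ∀ k ∈ A s, 0 ≤ k ∧ k < 2 ^ s) →
  volume.real (⋃ s ∈ Set.Ico s0 N, Nb r s (A s)) ≤ (2 * r + 1) * volume.real (⋃ s ∈ Set.Ico s0 N, ⋃ k ∈ A s, cell s k)

/-- **LSQ** (medium; uses LOA, LOB, LYN, LSM, LBM, LCS, LEA, LEP, LLV, LCV). Square sums.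
Proof. `M = Mop q c`. First sum: `(1 - E_s) M us_s = Σ_(s0 ≤ r < s) (1 - E_s) M D_r`, and `√nsq((1 - E_s) M D_r) ≤ min (lam √nsq D_r, √(K/2^(s-r-1)) √nsq D_r)`: the first because `1 - E_s` is a contraction and by GAP, the second by LOA for every label (Minkowski for the average, `Es s` is linear).
Second: `us_N - us_s = Σ_(s ≤ r < N) D_r`, `√nsq(E_s M D_r) ≤ min (lam, √(K/2^(r-s))) √nsq D_r` (LOB). `√(K/2^n) ≤ √K/2^(n/2)` and `2^(n/2) ≥ 2^(k/4)/2` for `k = |s-r|`, `n ≥ k - 1`. LYN with `w_k = min (lam, C/2^(k/4))`, LSM, `Σ nsq D_r ≤ nsq y`. -/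
def LSQ_stmt : Prop := ∃ K : ℝ, 1 ≤ K ∧ ∀ (lam : ℝ) (q : ℕ) (c : ℕ → DD) (s0 N : ℕ), 0 < lam → lam ≤ 1 / 2 → 10 ≤ s0 → s0 ≤ N → (∀ i < q, Sz (c i) (1 / 100)) →
  (∀ s, s0 ≤ s → s < N → GAP q c s lam) → ∀ y : ℝ → ℝ, BM y → S2 y →
  ∑ s ∈ Finset.Icc s0 N, nsq (fun x => Mop q c (us s0 s y) x - Es s (Mop q c (us s0 s y)) x) ≤ K * (lam * Lg lam) ^ 2 * nsq y ∧
  ∑ s ∈ Finset.Icc s0 N, nsq (Es s (Mop q c (fun x => us s0 N y x - us s0 s y x))) ≤ K * (lam * Lg lam) ^ 2 * nsq y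

/-- **LMX** (medium; uses LSQ, FGA, LDM, LBM, LCS, LEA, LEB, LLV). The maximal inequality.
Proof. `M us_s = E_s M us_N + (1 - E_s) M us_s - E_s M (us_N - us_s)` (`us_N = us_s + (us_N - us_s)`, linearity). If `|M us_s(x)| > th` for some `s` then (a) `|E_s M us_N (x)| > th/3` for some `s`, or (b), (c): the sum over `s` of the squares of the second (third) terms at `x` is `> th^2/9`. (b), (c): Chebyshev and LSQ.
(a): `|E_s g| ≤ 4 (average of |g|) ≤ 4 (average of g^2)^(1/2)`, so the average of `g^2`, `g = M us_N`, over the cell of level `s` of `x` is `> th^2/144`; LDM with `h = g^2`: measure at most `144/th^2 · nsq g`, and `nsq g ≤ K lam^2 Lg nsq (us_N) ≤ K lam^2 Lg nsq y` by FGA (`us_N` is `PA N`, its support is in `[9/40,31/40]` if `y`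
vanishes outside `[1/4,3/4]`, `Es s0 us_N = 0`). -/
def LMX_stmt : Prop := ∃ K : ℝ, 1 ≤ K ∧ ∀ (lam : ℝ) (q : ℕ) (c : ℕ → DD) (s0 N : ℕ), 0 < lam → lam ≤ 1 / 2 → 10 ≤ s0 → s0 ≤ N → (∀ i < q, Sz (c i) (1 / 100)) →
  (∀ s, s0 ≤ s → s < N → GAP q c s lam) → ∀ (y : ℝ → ℝ) (th : ℝ), BM y → (∀ x, x ∉ Set.Icc (1 / 4 : ℝ) (3 / 4) → y x = 0) → 0 < th →
  volume.real {x | ∃ s : ℕ, s0 ≤ s ∧ s ≤ N ∧ th < |Mop q c (us s0 s y) x|} ≤ K * (lam * Lg lam) ^ 2 / th ^ 2 * nsq y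

/-! ## Jumps -/

/-- The jump of `g` at the grid point `k/2^s` (`g` affine on the cells of level `s`). -/
noncomputable def jmp (s : ℕ) (g : ℝ → ℝ) (k : ℤ) : ℝ :=
  g ((k : ℝ) / 2 ^ s) - (2 * g (((k : ℝ) - 1 / 2) / 2 ^ s) - g (((k : ℝ) - 1) / 2 ^ s))

/-- The jump function: `|jump|` on the two cells of level `s + e` adjacent to each grid point of level `s`, zero elsewhere. -/
noncomputable def JF (s e : ℕ) (g : ℝ → ℝ) (x : ℝ) : ℝ :=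
  (if (2 : ℤ) ^ e ∣ ci (s + e) x then |jmp s g (ci s x)| else 0) + (if (2 : ℤ) ^ e ∣ ci (s + e) x + 1 then |jmp s g (ci s x + 1)| else 0)

/-- **LJP** (medium; uses LEN). Pointwise comparison.
Proof. Same cell of level `s`: LEN (7). Otherwise (`|z - z'| ≤ 2^-(s+e) ≤ 2^-s`) the cells are adjacent with a common end `b = k/2^s` between `z` and `z'`. Value of the affine function of the left cell at `b`: `2 g((k-1/2)/2^s) - g((k-1)/2^s)`. So `|g z - g z'| ≤ |jmp s g k| + 2·2^s B |z - z'|`.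
If `z < b ≤ z'` then `b ≤ z' < b + 2^-(s+e)`, so `ci (s+e) z' = 2^e k`, `ci s z' = k`; if `z' < b ≤ z` then `b - 2^-(s+e) ≤ z' < b`, so `ci (s+e) z' = 2^e k - 1`, `ci s z' = k - 1`. In both cases `JF s e g z' ≥ |jmp s g k|`.
For `Mop`: `|ev (c i) x - ev (c i) x'| ≤ (51/50) 2^-(s+e+1) ≤ 2^-(s+e)`; average. -/
def LJP_stmt : Prop :=
  (∀ (s e : ℕ) (g : ℝ → ℝ) (B z z' : ℝ), PA s g → (∀ x, |g x| ≤ B) → |z - z'| ≤ 1 / 2 ^ (s + e) → |g z - g z'| ≤ JF s e g z' + 2 * 2 ^ s * B * |z - z'|) ∧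
  ∀ (q s e : ℕ) (c : ℕ → DD) (g : ℝ → ℝ) (B x x' : ℝ), (∀ i < q, Sz (c i) (1 / 100)) → 0 ≤ B → PA s g → (∀ x, |g x| ≤ B) → |x - x'| ≤ 1 / 2 ^ (s + e + 1) →
    |Mop q c g x - Mop q c g x'| ≤ Mop q c (JF s e g) x' + 2 * B / 2 ^ e

/-- **LJB** (medium; uses LBM, LEA, LEN, LCE, LEB). Properties of the jump functions, `e ≥ 1`.
Proof. `JF s e g` is constant on the cells of level `s + e` (`ci s x` is determined by `ci (s+e) x`), so it is `PA (s+e)`. `|jmp| ≤ 4B` and on a cell of level `s` the function is at most `4B` on two cells of level `s+e` (each of the two `if`s holds on one of them; if `e ≥ 1` they are different) and zero elsewhere, so the average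
is at most `8B/2^e` and `|Es s (JF s e g)| ≤ 32 B/2^e` (LEB). `JF s e g x` only depends on the values of `g` at points at distance at most `2·2^-s` from `x`, which gives the supports (`4 ≤ s`: `2/16 < 1/5`; `10 ≤ s`: `2/1024 < 1/100`). Third: subadditivity of `|jmp|`, which is linear in `g`.
Fourth (`g` is `PA (r+1)`, `r < s`): `jmp s g k = 0` unless `k/2^s` is a grid point of level `r+1` (otherwise the three points lie in one cell of level `r+1`, where the second difference of an affine function is `0`; note `(k-1)/2^s` is in the closed cell, and it is in the half open cell because it is `≥` its left end),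
and if `k/2^s = b` is a grid point of level `r+1` then `|jmp s g k| ≤ Bg (r+1) g b + Bg (r+1) g (b - 2^-(s+1))`. The grid point `b` contributes at most `2·2^-(s+e) (…)^2 ≤ 4·2^-(s+e) (Bg^2 + Bg^2)` to `nsq`, sum over `b`: `≤ 8·2^-(s+e)·2^(r+1) nsq (Bg (r+1) g) ≤ 8·36·2^-e 2^(r+1-s) nsq g`. -/
def LJB_stmt : Prop := ∃ K : ℝ, 1 ≤ K ∧
  (∀ (s e : ℕ) (g : ℝ → ℝ) (B : ℝ), 1 ≤ e → 4 ≤ s → PA s g → (∀ x, |g x| ≤ B) → (∀ x, x ∉ Set.Icc (1 / 5 : ℝ) (4 / 5) → g x = 0) →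
    BM (JF s e g) ∧ PA (s + e) (JF s e g) ∧ (∀ x, 0 ≤ JF s e g x) ∧ ∀ x, |Es s (JF s e g) x| ≤ K * B / 2 ^ e) ∧
  (∀ (s e : ℕ) (g : ℝ → ℝ), 10 ≤ s → S3 g → S4 (JF s e g)) ∧
  (∀ (s e : ℕ) (I : Finset ℕ) (g : ℕ → ℝ → ℝ) (x : ℝ), JF s e (fun z => ∑ r ∈ I, g r z) x ≤ ∑ r ∈ I, JF s e (g r) x) ∧
  ∀ (s r e : ℕ) (g : ℝ → ℝ), 1 ≤ e → 4 ≤ s → r < s → PA (r + 1) g → BM g → (∀ x, x ∉ Set.Icc (1 / 5 : ℝ) (4 / 5) → g x = 0) → nsq (JF s e g) ≤ K / 2 ^ e / 2 ^ (s - r) * nsq g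

/-- **LJE** (short/medium; uses LJB, LYN, LBM, LCS, LLV). Energy of the jumps.
Proof. `us s0 s y = Σ_(s0 ≤ r < s) D_r`, so `JF (us_s) ≤ Σ_r JF (D_r)` and `√nsq (JF s e (us_s)) ≤ Σ_(r<s) √(K 2^-e) 2^-(s-r)/2 √nsq D_r`; LYN with `w_k = √K 2^(-e/2) 2^(-k/2)` (real number `√(K/2^e/2^k)`), whose sum is `≤ 4 √K 2^(-e/2)`. -/
def LJE_stmt : Prop := ∃ K : ℝ, 1 ≤ K ∧ ∀ (s0 N e : ℕ) (y : ℝ → ℝ), 10 ≤ s0 → s0 ≤ N → 1 ≤ e → BM y → (∀ x, x ∉ Set.Icc (1 / 4 : ℝ) (3 / 4) → y x = 0) →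
  ∑ s ∈ Finset.Icc s0 N, nsq (JF s e (us s0 s y)) ≤ K / 2 ^ e * nsq y

/-- **LGA** (medium; uses LMX, FGA, LJP, LJB, LJE, LBM, LCS, LEA, LEB, LLV). Bad points of the first two kinds.
Proof. `B = 16 ≥ sup |us|` (`|y| ≤ 2`, LEB). Let `e` be so large that `2·16/2^e + K 16/2^e ≤ th/4`. `G1 = {x : ∃ s ≤ N, |M us_s x| > th/4}` (LMX), `G2 = {x : ∃ s ≤ N, |M (J_s - E_s J_s) x| > th/4}`, `J_s = JF s e (us_s)`: Chebyshev, FGA for `J_s - E_s J_s` (`PA (s+e)`, `Es s0 = 0`; `us_s` satisfies `S3`, so `J_s` satisfies `S4` and `J_s - E_s J_s` satisfies `S2` by LEB)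
and LJE: `|G2| ≤ (16/th^2) Σ_s K lam^2 Lg nsq J_s ≤ K(th) lam^2 Lg nsq y`. If `|M us_s x| > th` and `x'` is in the same cell of level `s+e+1` then `th < |M us_s x'| + M J_s (x') + 32/2^e`, `M J_s = M (J_s - E_s J_s) + M E_s J_s`, and `|M E_s J_s| ≤ K 16/2^e`; so `x' ∈ G1 ∪ G2`. Take `G = G1 ∪ G2` (measurable). -/
def LGA_stmt : Prop := ∀ th : ℝ, 0 < th → ∃ (e : ℕ) (A : ℝ), 1 ≤ e ∧ 0 ≤ A ∧ ∀ (lam : ℝ) (q : ℕ) (c : ℕ → DD) (s0 N : ℕ), 0 < lam → lam ≤ 1 / 2 → 10 ≤ s0 → s0 ≤ N → (∀ i < q, Sz (c i) (1 / 100)) →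
  (∀ s, s0 ≤ s → s < N + e → GAP q c s lam) → ∀ y : ℝ → ℝ, BM y → (∀ x, x ∉ Set.Icc (1 / 4 : ℝ) (3 / 4) → y x = 0) → (∀ x, |y x| ≤ 2) →
  ∃ G : Set ℝ, MeasurableSet G ∧ G ⊆ Set.Icc 0 1 ∧ volume.real G ≤ A * (lam * Lg lam) ^ 2 * nsq y ∧
    ∀ (s : ℕ) (x : ℝ), s0 ≤ s → s ≤ N → th < |Mop q c (us s0 s y) x| → cell (s + e + 1) (ci (s + e + 1) x) ⊆ G

/-! ## The functions `fr_s D_s` -/

/-- **LFV** (medium/long; uses FGA, LBM, LCS, LEA, LEP, LEB, LEN, LCE, LCV). The gap for `v = fr_s · f`, `f` an increment of level `s`.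
Proof. (1) On a cell of level `s+1` `v` is a quadratic polynomial with leading coefficient `2^s b`, `|b| ≤ 2·2^(s+1) Bg (s+1) f`; on a cell `Z` of level `n = s+1+L` subtract the affine function with the same value and derivative at the left end: the difference is at most `2^s |b| 4^-n ≤ 4^-L Bg`, so by best
approximation `nsq (v - E_n v) ≤ 36·16^-L nsq f`. (2) Since `Es s f = 0`, `∫_X f = ∫_X (t - m) f = 0`, so `∫_X v = 0` for every cell `X` of level `s`; in `E_(s0) v (x) = Σ_X ∫_X v(t) 2^s0 (1 + 12·4^s0 (x-m0)(t-m0)) dt` the kernel varies on `X` by at most `6·4^s0·2^-s`, so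
`|E_(s0) v (x)| ≤ 6·2^-(s-s0)·2^s0 ∫_(cell s0) |v|` and `nsq (E_(s0) v) ≤ 36·4^-(s-s0) nsq v` (Cauchy-Schwarz on the cell, LCE), `nsq v ≤ nsq f`. (3) `w = E_n v - E_(s0) v` is `PA n`, `S2`, `Es s0 w = 0`, `nsq w ≤ nsq v`: FGA. (4) `v = w + (v - E_n v) + E_(s0) v`, `nsq (Mop ·) ≤ 2 nsq`, `(a+b+c)^2 ≤ 3(…)`. -/
def LFV_stmt : Prop := ∃ K : ℝ, 1 ≤ K ∧ ∀ (lam : ℝ) (q : ℕ) (c : ℕ → DD) (s0 s L : ℕ), 0 < lam → lam ≤ 1 / 2 → 10 ≤ s0 → s0 ≤ s → (∀ i < q, Sz (c i) (1 / 100)) →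
  (∀ r, s0 ≤ r → r < s + 1 + L → GAP q c r lam) → ∀ f : ℝ → ℝ, PA (s + 1) f → S3 f → (∀ x, Es s f x = 0) →
  nsq (Mop q c (fun z => fr s z * f z)) ≤ K * (lam ^ 2 * Lg lam + 1 / 4 ^ (s - s0) + 1 / 16 ^ L) * nsq f

/-- The jump function for `fr_s · f`. -/
noncomputable def JV (s e : ℕ) (f : ℝ → ℝ) (x : ℝ) : ℝ :=
  if (2 : ℤ) ^ (e - 1) ∣ ci (s + e) x ∨ (2 : ℤ) ^ (e - 1) ∣ ci (s + e) x + 1 then
    Bg (s + 1) f x + Bg (s + 1) f (x - 1 / 2 ^ (s + e)) + Bg (s + 1) f (x + 1 / 2 ^ (s + e)) else 0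

/-- **LJV** (medium; uses LBM, LEA, LEN, LCE, LEB). Pointwise comparison, size and energy for `v = fr_s f`, `e ≥ 2`.
Proof. (1) If `z, z'` are in the same cell of level `s+1`: `|v z - v z'| ≤ 2^s |z-z'| B + 2·2^(s+1) B |z-z'|`. Otherwise the cells are adjacent (`e ≥ 2`), `b` = common end, and `|v z - v z'| ≤ Bg z + Bg z'`; if `z' < b ≤ z` then `ci (s+e) z' + 1 = 2^(e-1) k` and `z` is in the same cell of level `s+1` as `z' + 2^-(s+e)`;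
if `z < b ≤ z'` then `ci (s+e) z' = 2^(e-1) k` and `z` is in the same cell of level `s+1` as `z' - 2^-(s+e)` (note `z ≥ z' - 2^-(s+e)`, and `z' - 2^-(s+e) < b`). For `Mop` as in LJP. (2) `JV` is constant on the cells of level `s+e`, at most `9B`, and non zero only on four cells of level `s+e` of each cell of level `s`.
(3) `JV^2 ≤ 3 (Bg(x)^2 + Bg(x-δ)^2 + Bg(x+δ)^2) 1[x ∈ Gr (s+1) δ]`, `δ = 2^-(s+e)`; shift: `Gr` enlarged to radius `2δ`; LEN. -/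
def LJV_stmt : Prop := ∃ K : ℝ, 1 ≤ K ∧ ∀ (s e : ℕ) (f : ℝ → ℝ), 2 ≤ e → 10 ≤ s → PA (s + 1) f → S3 f →
  BM (JV s e f) ∧ PA (s + e) (JV s e f) ∧ S4 (JV s e f) ∧ (∀ x, 0 ≤ JV s e f x) ∧ nsq (JV s e f) ≤ K / 2 ^ e * nsq f ∧
  ∀ B : ℝ, (∀ x, |f x| ≤ B) → (∀ x, |Es s (JV s e f) x| ≤ K * B / 2 ^ e) ∧
    ∀ (q : ℕ) (c : ℕ → DD) (x x' : ℝ), (∀ i < q, Sz (c i) (1 / 100)) → |x - x'| ≤ 1 / 2 ^ (s + e + 1) →
      |Mop q c (fun z => fr s z * f z) x - Mop q c (fun z => fr s z * f z) x'| ≤ Mop q c (JV s e f) x' + K * B / 2 ^ e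

/-- **LGB** (medium; uses LFV, LJV, FGA, LBM, LCS, LEA, LEB, LLV). Bad points of the third kind.
Proof. As LGA, for `v_s = fr_s D_s`, `D_s = Ds s y`, `|D_s| ≤ 16`: `G1 = {x : ∃ s ∈ [S1,N), |M v_s x| > th/4}`, `|G1| ≤ (16/th^2) Σ_(S1 ≤ s < N) nsq (M v_s)`, LFV with `L`; `G2 = {x : ∃ s ∈ [S1,N), |M (JV_s - E_s JV_s) x| > th/4}`, `|G2| ≤ (16/th^2) Σ_s K lam^2 Lg nsq (JV_s) ≤ K(th) lam^2 Lg Σ_s nsq D_s`. Use `Σ_s nsq D_s ≤ nsq y`. -/
def LGB_stmt : Prop := ∀ th : ℝ, 0 < th → ∃ (e : ℕ) (A : ℝ), 2 ≤ e ∧ 0 ≤ A ∧ ∀ (lam : ℝ) (q : ℕ) (c : ℕ → DD) (s0 S1 N L : ℕ), 0 < lam → lam ≤ 1 / 2 → 10 ≤ s0 → s0 ≤ S1 → (∀ i < q, Sz (c i) (1 / 100)) →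
  (∀ s, s0 ≤ s → s < N + L + e → GAP q c s lam) → ∀ y : ℝ → ℝ, BM y → (∀ x, x ∉ Set.Icc (1 / 4 : ℝ) (3 / 4) → y x = 0) → (∀ x, |y x| ≤ 2) →
  ∃ G : Set ℝ, MeasurableSet G ∧ G ⊆ Set.Icc 0 1 ∧ volume.real G ≤ A * ((lam * Lg lam) ^ 2 + 1 / 4 ^ (S1 - s0) + 1 / 16 ^ L) * nsq y ∧
    ∀ (s : ℕ) (x : ℝ), S1 ≤ s → s < N → th < |Mop q c (fun z => fr s z * Ds s y z) x| → cell (s + e + 1) (ci (s + e + 1) x) ⊆ G

/-- **LUN** (medium; uses LDM, LEL, LBM). From small sub-cells in `G` to neighbourhoods of the cells.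
Proof. Let `A s` be the set of `k` with `0 ≤ k < 2^s` such that `cell s k` contains a cell of level `s+e` contained in `G` (every `k` in question is of this kind: `G ⊆ [0,1]`, and a cell of level `s + e` inside `G ⊆ [0,1]` forces `0 ≤ k < 2^s`). On such a cell the average of `1_G` is at least `2^-e > 2^-(e+1)`, so
`⋃_s ⋃_k cell s k ⊆ {x : ∃ s ≤ N, 2^-(e+1) < average of 1_G over the cell of level s of x}`, measure at most `2^(e+1) |G|` (LDM); then LEL. -/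
def LUN_stmt : Prop := ∀ (r : ℝ) (s0 N e : ℕ) (G : Set ℝ) (A : ℕ → Set ℤ), 0 ≤ r → MeasurableSet G → G ⊆ Set.Icc 0 1 →
  (∀ s, s0 ≤ s → s < N → ∀ k ∈ A s, ∃ x ∈ cell s k, cell (s + e) (ci (s + e) x) ⊆ G) →
  volume.real (⋃ s ∈ Set.Ico s0 N, Nb r s (A s)) ≤ (2 * r + 1) * 2 ^ (e + 1) * volume.real G

/-- **LLO** (medium; uses LEA). Localisation. `y'` is `y` restricted to three neighbouring cells of level `p = s0 - w0 - 4`.
Proof. Let `I` be the union of the cells `κ-1, κ, κ+1` of level `p`; each has length `16·2^w0/2^s0`. If `|x - x0| ≤ 2·2^w0/2^s0` for some `x0 ∈ cell p κ` then `ev (c i) x` is at distance at most `8·2^w0/2^s0 + 2·2^w0/2^s0 < 16·2^w0/2^s0` from `x0`, so in `I`; the cells of level `s ≥ s0 ≥ p` containing it are contained in `I`, where `y' = y`.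
So all the functions of `ev (c i) x` in question agree (locality of `Es`). `nsq y' ≤ 4·3·16·2^w0/2^s0`. -/
def LLO_stmt : Prop := ∀ (q s0 w0 N : ℕ) (c : ℕ → DD) (y : ℝ → ℝ) (κ : ℤ), 10 * w0 ≤ s0 → 10 ≤ s0 → 1 ≤ w0 → s0 ≤ N → NI q c (1 / 100) (2 ^ (w0 + 3) / 2 ^ s0) →
  PA N y → (∀ x, x ∉ Set.Icc (1 / 4 : ℝ) (3 / 4) → y x = 0) → (∀ x, |y x| ≤ 2) →
  ∃ y' : ℝ → ℝ, PA N y' ∧ (∀ x, x ∉ Set.Icc (1 / 4 : ℝ) (3 / 4) → y' x = 0) ∧ (∀ x, |y' x| ≤ 2) ∧ nsq y' ≤ 192 * 2 ^ w0 / 2 ^ s0 ∧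
    ∀ x x0 : ℝ, x0 ∈ cell (s0 - w0 - 4) κ → |x - x0| ≤ 2 * 2 ^ w0 / 2 ^ s0 → ∀ (s S1 : ℕ) (th : ℝ), s0 ≤ s → (x ∈ BdS q c s0 S1 th y s ↔ x ∈ BdS q c s0 S1 th y' s)

/-- **LNF** (medium; uses LGA, LGB, LUN, LLO, LBM). The maximal function estimate with explicit constants, for one window.
Proof. `y'` from LLO; `G = G_A ∪ G_B` from LGA, LGB for `y'` (`BdS`: the first two kinds are `us s0 s y'` and `us s0 (s+1) y'`, `s + 1 ≤ N`; for the second kind the cell of level `(s+1)+e+1` is in `G`; take the common `e' = max(e_A, e_B) + 2`: smaller cells are contained in larger ones). First conclusion: a bad point at the level `s`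
in (or near) the window gives a cell of level `s + e'` inside `G`, so `1/2^(s+e') ≤ |G|`. Second: let `A s` be the numbers of the cells of level `s` which meet `BdS … y'`; if `Nb r s {k}` meets the window and the cell `k` contains a `y`-bad point `x` then `|x - x0| ≤ (r+2)/2^s ≤ 2·2^w0/2^s0`, so `x` is `y'`-bad. LUN. -/
def LNF_stmt : Prop := ∀ th r : ℝ, 0 < th → 0 ≤ r → ∃ (e : ℕ) (A : ℝ), 0 ≤ A ∧ ∀ (lam : ℝ) (q : ℕ) (c : ℕ → DD) (s0 w0 S1 N : ℕ) (y : ℝ → ℝ), 0 < lam → lam ≤ 1 / 2 → 10 * w0 ≤ s0 → 10 ≤ s0 → 1 ≤ w0 →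
  r + 2 ≤ 2 ^ w0 → s0 ≤ S1 → s0 ≤ N → NI q c (1 / 100) (2 ^ (w0 + 3) / 2 ^ s0) → (∀ s, s0 ≤ s → s < N + w0 + e → GAP q c s lam) →
  PA N y → (∀ x, x ∉ Set.Icc (1 / 4 : ℝ) (3 / 4) → y x = 0) → (∀ x, |y x| ≤ 2) → ∀ κ : ℤ,
  (∀ (s : ℕ) (x : ℝ), s0 ≤ s → s < N → x ∈ cell (s0 - w0 - 4) κ → x ∈ BdS q c s0 S1 th y s →
    1 / 2 ^ (s + e) ≤ A * ((lam * Lg lam) ^ 2 + 1 / 4 ^ (S1 - s0) + 1 / 16 ^ w0) * (2 ^ w0 / 2 ^ s0)) ∧
  volume.real ((⋃ s ∈ Set.Ico s0 N, Nb r s {k | (cell s k ∩ BdS q c s0 S1 th y s).Nonempty}) ∩ cell (s0 - w0 - 4) κ) ≤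
    A * ((lam * Lg lam) ^ 2 + 1 / 4 ^ (S1 - s0) + 1 / 16 ^ w0) * (2 ^ w0 / 2 ^ s0)

end Pool.Agent.helper90.DH
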